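import Mathlib

/-!
# Support preserving multiplicative maps on nonnegative Laurent polynomials: basic facts
-/

set_option autoImplicit false

namespace Pool.Agent.Q211.SP

open AddMonoidAlgebra

variable {G : Type*} [AddCommGroup G]

/-- Nonzero elements with nonnegative coefficients. -/
def Pos (A : AddMonoidAlgebra ℝ G) : Prop := (∀ x, 0 ≤ A.coeff x) ∧ ∃ x, 0 < A.coeff x

/-- The properties of the homogeneous extension of a support preserving endomorphism. -/
structure IsPsi (Ψ : AddMonoidAlgebra ℝ G → AddMonoidAlgebra ℝ G) : Prop where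
  mul : ∀ A B, Pos A → Pos B → Ψ (A * B) = Ψ A * Ψ B
  smul : ∀ (r : ℝ) A, 0 < r → Pos A → Ψ (r • A) = Ψ A
  nonneg : ∀ A, Pos A → ∀ x, 0 ≤ (Ψ A).coeff x
  supp : ∀ A, Pos A → ∀ x, (Ψ A).coeff x = 0 ↔ A.coeff x = 0
  mass : ∀ A, Pos A → (Ψ A).coeff.sum (fun _ a => a) = 1

theorem coeff_mul_sum (A B : AddMonoidAlgebra ℝ G) (T : Finset G) (hT : B.coeff.support ⊆ T)
    (x : G) : (A * B).coeff x = ∑ y ∈ T, A.coeff (x - y) * B.coeff y := by
  rw [coeff_mul_apply_right, Finsupp.sum_of_support_subset _ hT]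
  · simp only [sub_eq_add_neg]
  · simp

theorem Pos.mul {A B : AddMonoidAlgebra ℝ G} (hA : Pos A) (hB : Pos B) : Pos (A * B) := by
  obtain ⟨a, ha⟩ := hA.2
  obtain ⟨b, hb⟩ := hB.2
  have h0 : ∀ x, 0 ≤ (A * B).coeff x := by
    intro x
    rw [coeff_mul_sum A B _ subset_rfl]
    exact Finset.sum_nonneg fun y _ => mul_nonneg (hA.1 _) (hB.1 _)
  refine ⟨h0, a + b, ?_⟩
  rw [coeff_mul_sum A B _ subset_rfl]
  refine lt_of_lt_of_le ?_ (Finset.single_le_sum
    (f := fun y => A.coeff (a + b - y) * B.coeff y) (fun y _ => mul_nonneg (hA.1 _) (hB.1 _))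
    (Finsupp.mem_support_iff.2 hb.ne' : b ∈ B.coeff.support))
  simp only [add_sub_cancel_right]
  positivity

theorem Pos.smul {A : AddMonoidAlgebra ℝ G} (hA : Pos A) {r : ℝ} (hr : 0 < r) : Pos (r • A) := by
  obtain ⟨a, ha⟩ := hA.2
  refine ⟨fun x => ?_, a, ?_⟩
  · rw [coeff_smul_apply, smul_eq_mul]
    exact mul_nonneg hr.le (hA.1 x)
  · rw [coeff_smul_apply, smul_eq_mul]
    positivity

theorem Pos.pos_iff {A : AddMonoidAlgebra ℝ G} (hA : Pos A) (x : G) :
    0 < A.coeff x ↔ A.coeff x ≠ 0 :=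
  ⟨fun h => h.ne', fun h => lt_of_le_of_ne (hA.1 x) h.symm⟩

variable {Ψ : AddMonoidAlgebra ℝ G → AddMonoidAlgebra ℝ G}

theorem IsPsi.pos (h : IsPsi Ψ) {A : AddMonoidAlgebra ℝ G} (hA : Pos A) {x : G}
    (hx : 0 < A.coeff x) : 0 < (Ψ A).coeff x :=
  lt_of_le_of_ne (h.nonneg A hA x) fun h0 => hx.ne' ((h.supp A hA x).1 h0.symm)

theorem IsPsi.support (h : IsPsi Ψ) {A : AddMonoidAlgebra ℝ G} (hA : Pos A) :
    (Ψ A).coeff.support = A.coeff.support := by
  ext x
  simp only [Finsupp.mem_support_iff, ne_eq]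
  rw [h.supp A hA x]

theorem Pos_single (s : G) {r : ℝ} (hr : 0 < r) : Pos (single s r : AddMonoidAlgebra ℝ G) := by
  classical
  refine ⟨fun x => ?_, s, ?_⟩
  · rw [coeff_single, Finsupp.single_apply]
    split_ifs
    · exact hr.le
    · exact le_rfl
  · rw [coeff_single, Finsupp.single_eq_same]
    exact hr

theorem IsPsi.single (h : IsPsi Ψ) (s : G) {r : ℝ} (hr : 0 < r) :
    Ψ (single s r) = AddMonoidAlgebra.single s 1 := by
  classical
  have hp : Pos (AddMonoidAlgebra.single s r : AddMonoidAlgebra ℝ G) := Pos_single s hr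
  have hz : ∀ x, x ≠ s → (Ψ (AddMonoidAlgebra.single s r)).coeff x = 0 := by
    intro x hx
    rw [h.supp _ hp, coeff_single, Finsupp.single_eq_of_ne hx]
  have hm := h.mass _ hp
  rw [Finsupp.sum_of_support_subset (s := {s}) _ _ _ (by simp)] at hm
  · rw [Finset.sum_singleton] at hm
    apply coeff_injective
    ext x
    rw [coeff_single, Finsupp.single_apply]
    split_ifs with hx
    · rw [← hx, hm]
    · exact hz x (Ne.symm hx)
  · intro x hx
    rw [Finset.mem_singleton]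
    by_contra h1
    exact Finsupp.mem_support_iff.1 hx (hz x h1)

theorem IsPsi.translate (h : IsPsi Ψ) (s : G) {A : AddMonoidAlgebra ℝ G} (hA : Pos A) (y : G) :
    (Ψ (AddMonoidAlgebra.single s 1 * A)).coeff y = (Ψ A).coeff (y - s) := by
  rw [h.mul _ _ (Pos_single s one_pos) hA, h.single s one_pos, coeff_single_mul_apply, one_mul]
  congr 1
  abel

/-- The two point elements. -/
theorem IsPsi.two (h : IsPsi Ψ) {w : G} (hw : w ≠ 0) {A : AddMonoidAlgebra ℝ G} (hA : Pos A)
    (hA0 : ∀ x, x ≠ 0 → x ≠ w → A.coeff x = 0) :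
    Ψ A = AddMonoidAlgebra.single 0 (1 - (Ψ A).coeff w) +
      AddMonoidAlgebra.single w ((Ψ A).coeff w) := by
  classical
  have hz : ∀ x, x ≠ 0 → x ≠ w → (Ψ A).coeff x = 0 := by
    intro x hx hx'
    rw [h.supp _ hA]
    exact hA0 x hx hx'
  have hm := h.mass _ hA
  rw [Finsupp.sum_of_support_subset (s := {0, w}) _ _ _ (by simp)] at hm
  · rw [Finset.sum_pair hw.symm] at hm
    apply coeff_injective
    ext x
    rw [coeff_add, coeff_single, coeff_single, Finsupp.add_apply, Finsupp.single_apply,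
      Finsupp.single_apply]
    by_cases h0 : 0 = x
    · rw [if_pos h0, if_neg, ← h0, add_zero]
      · linarith
      · rw [← h0]
        exact hw
    · rw [if_neg h0]
      by_cases h1 : w = x
      · rw [if_pos h1, h1, zero_add]
      · rw [if_neg h1, hz x (Ne.symm h0) (Ne.symm h1), zero_add]
  · intro x hx
    rw [Finset.mem_insert, Finset.mem_singleton]
    by_contra h1
    push Not at h1
    exact Finsupp.mem_support_iff.1 hx (hz x h1.1 h1.2)

end Pool.Agent.Q211.SP
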