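import Pool.Agent.Q211.SP.Basic

/-!
# The two parameters are different
-/

set_option autoImplicit false

namespace Pool.Agent.Q211.SP

open AddMonoidAlgebra

variable {G : Type*} [AddCommGroup G]

/-- `1 + x^w`. -/
noncomputable def B1 (w : G) : AddMonoidAlgebra ℝ G :=
  AddMonoidAlgebra.single 0 1 + AddMonoidAlgebra.single w 1

/-- `2 + 3 x^w`. -/
noncomputable def B2 (w : G) : AddMonoidAlgebra ℝ G :=
  AddMonoidAlgebra.single 0 2 + AddMonoidAlgebra.single w 3

theorem B1_pos (w : G) : Pos (B1 w) := by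
  classical
  refine ⟨fun x => ?_, 0, ?_⟩
  · rw [B1, coeff_add, coeff_single, coeff_single, Finsupp.add_apply, Finsupp.single_apply,
      Finsupp.single_apply]
    split_ifs <;> norm_num
  · rw [B1, coeff_add, coeff_single, coeff_single, Finsupp.add_apply, Finsupp.single_apply,
      Finsupp.single_apply]
    split_ifs <;> norm_num at *

theorem B2_pos (w : G) : Pos (B2 w) := by
  classical
  refine ⟨fun x => ?_, 0, ?_⟩
  · rw [B2, coeff_add, coeff_single, coeff_single, Finsupp.add_apply, Finsupp.single_apply,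
      Finsupp.single_apply]
    split_ifs <;> norm_num
  · rw [B2, coeff_add, coeff_single, coeff_single, Finsupp.add_apply, Finsupp.single_apply,
      Finsupp.single_apply]
    split_ifs <;> norm_num at *

variable {Ψ : AddMonoidAlgebra ℝ G → AddMonoidAlgebra ℝ G}

/-- The first parameter. -/
noncomputable def p1 (Ψ : AddMonoidAlgebra ℝ G → AddMonoidAlgebra ℝ G) (w : G) : ℝ :=
  (Ψ (B1 w)).coeff w

/-- The second parameter. -/
noncomputable def p2 (Ψ : AddMonoidAlgebra ℝ G → AddMonoidAlgebra ℝ G) (w : G) : ℝ :=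
  (Ψ (B2 w)).coeff w

theorem Psi_B1 (h : IsPsi Ψ) {w : G} (hw : w ≠ 0) :
    Ψ (B1 w) = AddMonoidAlgebra.single 0 (1 - p1 Ψ w) + AddMonoidAlgebra.single w (p1 Ψ w) := by
  classical
  refine h.two hw (B1_pos w) ?_
  intro x hx hx'
  rw [B1, coeff_add, coeff_single, coeff_single, Finsupp.add_apply,
    Finsupp.single_eq_of_ne hx, Finsupp.single_eq_of_ne hx', add_zero]

theorem Psi_B2 (h : IsPsi Ψ) {w : G} (hw : w ≠ 0) :
    Ψ (B2 w) = AddMonoidAlgebra.single 0 (1 - p2 Ψ w) + AddMonoidAlgebra.single w (p2 Ψ w) := by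
  classical
  refine h.two hw (B2_pos w) ?_
  intro x hx hx'
  rw [B2, coeff_add, coeff_single, coeff_single, Finsupp.add_apply,
    Finsupp.single_eq_of_ne hx, Finsupp.single_eq_of_ne hx', add_zero]

theorem p1_mem (h : IsPsi Ψ) {w : G} (hw : w ≠ 0) : 0 < p1 Ψ w ∧ p1 Ψ w < 1 := by
  classical
  constructor
  · apply h.pos (B1_pos w)
    rw [B1, coeff_add, coeff_single, coeff_single, Finsupp.add_apply,
      Finsupp.single_eq_of_ne hw, Finsupp.single_eq_same]
    norm_num
  · have h1 : 0 < (Ψ (B1 w)).coeff 0 := by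
      apply h.pos (B1_pos w)
      rw [B1, coeff_add, coeff_single, coeff_single, Finsupp.add_apply,
        Finsupp.single_eq_of_ne hw.symm, Finsupp.single_eq_same]
      norm_num
    rw [Psi_B1 h hw, coeff_add, coeff_single, coeff_single, Finsupp.add_apply,
      Finsupp.single_eq_of_ne hw.symm, Finsupp.single_eq_same] at h1
    linarith

theorem p2_mem (h : IsPsi Ψ) {w : G} (hw : w ≠ 0) : 0 < p2 Ψ w ∧ p2 Ψ w < 1 := by
  classical
  constructor
  · apply h.pos (B2_pos w)
    rw [B2, coeff_add, coeff_single, coeff_single, Finsupp.add_apply,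
      Finsupp.single_eq_of_ne hw, Finsupp.single_eq_same]
    norm_num
  · have h1 : 0 < (Ψ (B2 w)).coeff 0 := by
      apply h.pos (B2_pos w)
      rw [B2, coeff_add, coeff_single, coeff_single, Finsupp.add_apply,
        Finsupp.single_eq_of_ne hw.symm, Finsupp.single_eq_same]
      norm_num
    rw [Psi_B2 h hw, coeff_add, coeff_single, coeff_single, Finsupp.add_apply,
      Finsupp.single_eq_of_ne hw.symm, Finsupp.single_eq_same] at h1
    linarith

/-- Coefficient of a product with a two point element. -/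
theorem coeff_two_mul (a b : ℝ) (w : G) (A : AddMonoidAlgebra ℝ G) (y : G) :
    ((AddMonoidAlgebra.single 0 a + AddMonoidAlgebra.single w b) * A).coeff y =
      a * A.coeff y + b * A.coeff (y - w) := by
  rw [add_mul, coeff_add, Finsupp.add_apply, coeff_single_mul_apply, coeff_single_mul_apply]
  congr 3
  · rw [neg_zero, zero_add]
  · abel

variable [IsAddTorsionFree G]

theorem nsmul_ne {w : G} (hw : w ≠ 0) {n : ℕ} (hn : n ≠ 0) : n • w ≠ 0 := by
  intro h
  exact hw ((nsmul_eq_zero_iff_right hn).1 h)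

theorem p1_ne_p2 (h : IsPsi Ψ) {w : G} (hw : w ≠ 0) : p1 Ψ w ≠ p2 Ψ w := by
  classical
  intro he
  set Y : AddMonoidAlgebra ℝ G := AddMonoidAlgebra.single w 1 with hY
  have hB1 : B1 w = 1 + Y := by rw [B1, hY, one_def]
  have h3 : (AddMonoidAlgebra.single w 3 : AddMonoidAlgebra ℝ G) = 3 * Y := by
    rw [hY, ofNat_def, single_mul_single, zero_add, mul_one]
  have h2 : (AddMonoidAlgebra.single 0 2 : AddMonoidAlgebra ℝ G) = 2 := by
    rw [ofNat_def]
  have hB2 : B2 w = 2 + 3 * Y := by rw [B2, h2, h3]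
  have hYn : ∀ n : ℕ, Y ^ n = AddMonoidAlgebra.single (n • w) 1 := by
    intro n
    rw [hY, single_pow, one_pow]
  have hna : ∀ n : ℕ, ∀ r : ℝ, (AddMonoidAlgebra.single (n • w) r : AddMonoidAlgebra ℝ G) =
      AddMonoidAlgebra.single 0 r * Y ^ n := by
    intro n r
    rw [hYn, single_mul_single, zero_add, mul_one]
  -- the two elements
  set Ra : AddMonoidAlgebra ℝ G := AddMonoidAlgebra.single 0 1 +
    AddMonoidAlgebra.single ((2 : ℕ) • w) 1 + AddMonoidAlgebra.single ((3 : ℕ) • w) 2 with hRa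
  set Rb : AddMonoidAlgebra ℝ G := AddMonoidAlgebra.single 0 2 + AddMonoidAlgebra.single w 1 +
    AddMonoidAlgebra.single ((2 : ℕ) • w) 1 + AddMonoidAlgebra.single ((3 : ℕ) • w) 6 with hRb
  have h6 : (AddMonoidAlgebra.single 0 6 : AddMonoidAlgebra ℝ G) = 6 := by
    rw [ofNat_def]
  have hRa' : Ra = 1 + Y ^ 2 + 2 * Y ^ 3 := by
    rw [hRa, hna 3 2, hna 2 1, h2, ← one_def, one_mul]
  have hRb' : Rb = 2 + Y + Y ^ 2 + 6 * Y ^ 3 := by
    rw [hRb, hna 3 6, hna 2 1, h2, h6, ← one_def, one_mul]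
  have hid : B2 w * Ra = B1 w * Rb := by
    rw [hB1, hB2, hRa', hRb']
    ring
  have cRa : ∀ x, Ra.coeff x = (if 0 = x then 1 else 0) + (if (2 : ℕ) • w = x then 1 else 0) +
      (if (3 : ℕ) • w = x then 2 else 0) := by
    intro x
    rw [hRa]
    simp only [coeff_add, coeff_single, Finsupp.add_apply, Finsupp.single_apply]
  have cRb : ∀ x, Rb.coeff x = (if 0 = x then 2 else 0) + (if w = x then 1 else 0) +
      (if (2 : ℕ) • w = x then 1 else 0) + (if (3 : ℕ) • w = x then 6 else 0) := by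
    intro x
    rw [hRb]
    simp only [coeff_add, coeff_single, Finsupp.add_apply, Finsupp.single_apply]
  have hRap : Pos Ra := by
    refine ⟨fun x => ?_, 0, ?_⟩
    · rw [cRa]
      split_ifs <;> norm_num
    · rw [cRa]
      split_ifs <;> norm_num at *
  have hRbp : Pos Rb := by
    refine ⟨fun x => ?_, 0, ?_⟩
    · rw [cRb]
      split_ifs <;> norm_num
    · rw [cRb]
      split_ifs <;> norm_num at *
  have hw2 : (2 : ℕ) • w ≠ 0 := nsmul_ne hw (by norm_num)
  have hw3 : (3 : ℕ) • w ≠ 0 := nsmul_ne hw (by norm_num)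
  have hw4 : (4 : ℕ) • w ≠ 0 := nsmul_ne hw (by norm_num)
  have e2 : (2 : ℕ) • w = w + w := two_nsmul w
  have e3 : (3 : ℕ) • w = w + w + w := by rw [succ_nsmul, two_nsmul]
  have e4 : (4 : ℕ) • w = w + w + w + w := by rw [succ_nsmul, e3]
  -- coefficients
  have m1 : (0 : G) - w ≠ 0 := by rw [zero_sub]; exact neg_ne_zero.2 hw
  have hneg : ∀ n : ℕ, n ≠ 0 → n • w ≠ -w := by
    intro n _ h1
    have h2 : (n + 1) • w = 0 := by rw [succ_nsmul, h1, neg_add_cancel]
    exact nsmul_ne hw (Nat.succ_ne_zero n) h2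
  have a1 : (Ψ Ra).coeff (0 - w) = 0 := by
    rw [h.supp _ hRap, cRa, zero_sub, if_neg (neg_ne_zero.2 hw).symm, if_neg (hneg 2 (by norm_num)),
      if_neg (hneg 3 (by norm_num))]
    norm_num
  have b1 : (Ψ Rb).coeff (0 - w) = 0 := by
    have h5 : w ≠ -w := by
      have := hneg 1 (by norm_num)
      rwa [one_nsmul] at this
    rw [h.supp _ hRbp, cRb, zero_sub, if_neg (neg_ne_zero.2 hw).symm, if_neg h5,
      if_neg (hneg 2 (by norm_num)), if_neg (hneg 3 (by norm_num))]
    norm_num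
  have hne2 : (2 : ℕ) • w ≠ w := by
    rw [e2]
    intro h1
    exact hw (by simpa using h1)
  have hne3 : (3 : ℕ) • w ≠ w := by
    rw [e3]
    intro h1
    have h2 : w + w = 0 := by
      have : w + w + w = 0 + w := by rw [h1, zero_add]
      exact add_right_cancel this
    rw [← e2] at h2
    exact hw2 h2
  have a2 : (Ψ Ra).coeff w = 0 := by
    rw [h.supp _ hRap, cRa, if_neg hw.symm, if_neg hne2, if_neg hne3]
    norm_num
  have b2 : 0 < (Ψ Rb).coeff w := by
    apply h.pos hRbp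
    rw [cRb, if_neg hw.symm, if_pos rfl, if_neg hne2, if_neg hne3]
    norm_num
  have key : Ψ (B2 w) * Ψ Ra = Ψ (B1 w) * Ψ Rb := by
    rw [← h.mul _ _ (B2_pos w) hRap, ← h.mul _ _ (B1_pos w) hRbp, hid]
  rw [Psi_B1 h hw, Psi_B2 h hw, ← he] at key
  have k0 := congrArg (fun A => A.coeff 0) key
  have kw := congrArg (fun A => A.coeff w) key
  rw [coeff_two_mul, coeff_two_mul] at k0 kw
  rw [a1, b1] at k0
  rw [a2, sub_self] at kw
  obtain ⟨q0, q1⟩ := p1_mem h hw
  have k0' : (Ψ Ra).coeff 0 = (Ψ Rb).coeff 0 := by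
    have h1 : (1 - p1 Ψ w) ≠ 0 := by linarith
    apply mul_left_cancel₀ h1
    linarith
  rw [k0'] at kw
  have h1 : (1 - p1 Ψ w) * (Ψ Rb).coeff w = 0 := by linarith
  rcases mul_eq_zero.1 h1 with h2 | h2 <;> linarith

end Pool.Agent.Q211.SP
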