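import Pool.Agent.Q211.SP.Inj

/-!
# Signed multipliers: the abstract step
-/

set_option autoImplicit false

namespace Pool.Agent.Q211.SP

open AddMonoidAlgebra

variable {G : Type*} [AddCommGroup G] {Ψ : AddMonoidAlgebra ℝ G → AddMonoidAlgebra ℝ G}

/-- The image of a signed multiplier `Q` (up to a scalar). -/
noncomputable def Qp (Ψ : AddMonoidAlgebra ℝ G → AddMonoidAlgebra ℝ G) (w : G)
    (Q : AddMonoidAlgebra ℝ G) : AddMonoidAlgebra ℝ G :=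
  p2 Ψ w • Ψ (B1 w * Q) - p1 Ψ w • Ψ (B2 w * Q)

theorem coeff_Qp (w : G) (Q : AddMonoidAlgebra ℝ G) (x : G) :
    (Qp Ψ w Q).coeff x = p2 Ψ w * (Ψ (B1 w * Q)).coeff x - p1 Ψ w * (Ψ (B2 w * Q)).coeff x := by
  rw [Qp, coeff_sub, Finsupp.sub_apply, coeff_smul_apply, coeff_smul_apply, smul_eq_mul,
    smul_eq_mul]

theorem keyA (h : IsPsi Ψ) {w v : G} (hw : w ≠ 0) (hv : v ≠ 0) (Q F : AddMonoidAlgebra ℝ G)
    (hF : Pos F) (h1 : Pos (B1 w * Q)) (h2 : Pos (B2 w * Q)) (hR : Pos (Q * F))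
    (hRv : (Q * F).coeff v = 0)
    (hQ : ∀ s, F.coeff s ≠ 0 → s ≠ 0 → s ≠ v →
      (B1 w * Q).coeff (v - s) = 0 ∧ (B2 w * Q).coeff (v - s) = 0) :
    (Qp Ψ w Q).coeff 0 * (Ψ F).coeff v + (Qp Ψ w Q).coeff v * (Ψ F).coeff 0 = 0 := by
  classical
  have e1 : Ψ (B1 w * Q) * Ψ F = Ψ (B1 w) * Ψ (Q * F) := by
    rw [← h.mul _ _ h1 hF, ← h.mul _ _ (B1_pos w) hR, mul_assoc]
  have e2 : Ψ (B2 w * Q) * Ψ F = Ψ (B2 w) * Ψ (Q * F) := by
    rw [← h.mul _ _ h2 hF, ← h.mul _ _ (B2_pos w) hR, mul_assoc]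
  have hR' : (Ψ (Q * F)).coeff v = 0 := (h.supp _ hR v).2 hRv
  have c1 := congrArg (fun A => A.coeff v) e1
  have c2 := congrArg (fun A => A.coeff v) e2
  rw [Psi_B1 h hw, coeff_two_mul, hR'] at c1
  rw [Psi_B2 h hw, coeff_two_mul, hR'] at c2
  set T : Finset G := insert 0 (insert v F.coeff.support) with hT
  have hTs : (Ψ F).coeff.support ⊆ T := by
    rw [h.support hF]
    exact (Finset.subset_insert _ _).trans (Finset.subset_insert _ _)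
  have d1 : ∑ s ∈ T, (Qp Ψ w Q).coeff (v - s) * (Ψ F).coeff s = 0 := by
    rw [coeff_mul_sum _ _ T hTs] at c1 c2
    have : ∑ s ∈ T, (Qp Ψ w Q).coeff (v - s) * (Ψ F).coeff s =
        p2 Ψ w * ∑ s ∈ T, (Ψ (B1 w * Q)).coeff (v - s) * (Ψ F).coeff s -
        p1 Ψ w * ∑ s ∈ T, (Ψ (B2 w * Q)).coeff (v - s) * (Ψ F).coeff s := by
      rw [Finset.mul_sum, Finset.mul_sum, ← Finset.sum_sub_distrib]
      refine Finset.sum_congr rfl fun s _ => ?_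
      rw [coeff_Qp]
      ring
    rw [this, c1, c2]
    ring
  have d2 : ∑ s ∈ T, (Qp Ψ w Q).coeff (v - s) * (Ψ F).coeff s =
      ∑ s ∈ ({0, v} : Finset G), (Qp Ψ w Q).coeff (v - s) * (Ψ F).coeff s := by
    symm
    apply Finset.sum_subset
    · intro s hs
      rw [Finset.mem_insert, Finset.mem_singleton] at hs
      rw [hT, Finset.mem_insert, Finset.mem_insert]
      tauto
    · intro s hs hs'
      rw [Finset.mem_insert, Finset.mem_singleton, not_or] at hs'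
      by_cases h0 : F.coeff s = 0
      · rw [(h.supp F hF s).2 h0, mul_zero]
      · obtain ⟨q1, q2⟩ := hQ s h0 hs'.1 hs'.2
        rw [coeff_Qp, (h.supp _ h1 _).2 q1, (h.supp _ h2 _).2 q2]
        ring
  rw [d2, Finset.sum_pair hv.symm, sub_zero, sub_self] at d1
  linarith

theorem Qp_ne (h : IsPsi Ψ) [IsAddTorsionFree G] {w : G} (hw : w ≠ 0) (Q : AddMonoidAlgebra ℝ G)
    (h1 : Pos (B1 w * Q)) (h2 : Pos (B2 w * Q))
    (hp : 0 < (B1 w * Q).coeff 0)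
    (hn1 : (B1 w * Q).coeff (-w) = 0) (hn2 : (B2 w * Q).coeff (-w) = 0) :
    (Qp Ψ w Q).coeff 0 ≠ 0 := by
  have e : Ψ (B2 w) * Ψ (B1 w * Q) = Ψ (B1 w) * Ψ (B2 w * Q) := by
    rw [← h.mul _ _ (B2_pos w) h1, ← h.mul _ _ (B1_pos w) h2]
    congr 1
    ring
  have c := congrArg (fun A => A.coeff 0) e
  rw [Psi_B1 h hw, Psi_B2 h hw, coeff_two_mul, coeff_two_mul, zero_sub,
    (h.supp _ h1 _).2 hn1, (h.supp _ h2 _).2 hn2, mul_zero, mul_zero, add_zero, add_zero] at c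
  have hp' := h.pos h1 hp
  obtain ⟨p10, p11⟩ := p1_mem h hw
  obtain ⟨p20, p21⟩ := p2_mem h hw
  rw [coeff_Qp]
  intro h0
  have h3 : (p2 Ψ w - p1 Ψ w) * (Ψ (B1 w * Q)).coeff 0 = 0 := by
    have : (1 - p1 Ψ w) * (p2 Ψ w * (Ψ (B1 w * Q)).coeff 0 -
        p1 Ψ w * (Ψ (B2 w * Q)).coeff 0) = 0 := by rw [h0, mul_zero]
    linear_combination this - p1 Ψ w * c
  rcases mul_eq_zero.1 h3 with h4 | h4
  · exact p1_ne_p2 h hw (by linarith)
  · linarith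

end Pool.Agent.Q211.SP
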