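import Pool.Agent.Q211.SP.KeyA

/-!
# Signed multipliers: the construction
-/

set_option autoImplicit false

namespace Pool.Agent.Q211.SP

open AddMonoidAlgebra

variable {G : Type*} [AddCommGroup G] [DecidableEq G]
  {Ψ : AddMonoidAlgebra ℝ G → AddMonoidAlgebra ℝ G}

/-- The signed multiplier. -/
noncomputable def Qd (a C : ℝ) (v w : G) (U : Finset G) : AddMonoidAlgebra ℝ G :=
  AddMonoidAlgebra.single 0 1 - AddMonoidAlgebra.single v a +
    AddMonoidAlgebra.single (v - w) (2 * a) + AddMonoidAlgebra.single (v + w) (2 * a) +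
    ∑ u ∈ U, AddMonoidAlgebra.single u C

theorem coeff_Qd (a C : ℝ) (v w : G) (U : Finset G) (y : G) :
    (Qd a C v w U).coeff y = (if 0 = y then 1 else 0) - (if v = y then a else 0) +
      (if v - w = y then 2 * a else 0) + (if v + w = y then 2 * a else 0) +
      (if y ∈ U then C else 0) := by
  rw [Qd]
  simp only [coeff_add, coeff_sub, coeff_sum, coeff_single, Finsupp.add_apply, Finsupp.sub_apply,
    Finsupp.finsetSum_apply, Finsupp.single_apply, Finset.sum_ite_eq']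

theorem coeff_Qd_mul (a C : ℝ) (v w : G) (U : Finset G) (F : AddMonoidAlgebra ℝ G) (y : G) :
    (Qd a C v w U * F).coeff y = F.coeff y - a * F.coeff (y - v) +
      2 * a * F.coeff (y - (v - w)) + 2 * a * F.coeff (y - (v + w)) +
      ∑ u ∈ U, C * F.coeff (y - u) := by
  rw [Qd, add_mul, add_mul, add_mul, sub_mul, Finset.sum_mul]
  simp only [coeff_add, coeff_sub, coeff_sum, Finsupp.add_apply, Finsupp.sub_apply,
    Finsupp.finsetSum_apply, coeff_single_mul_apply, neg_zero, zero_add, one_mul]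
  have e : ∀ u : G, -u + y = y - u := fun u => by abel
  simp only [e]

/-- The genericity conditions. -/
structure Gen (v w : G) (S U : Finset G) : Prop where
  w0 : w ≠ 0
  sw : w ∉ S
  snw : -w ∉ S
  a1 : v ≠ -w
  a2 : v - w ≠ -w
  a3 : v + w ≠ -w
  a4 : -w ∉ U
  b0 : 0 ≠ -w - w
  b1 : v ≠ -w - w
  b2 : v - w ≠ -w - w
  b3 : v + w ≠ -w - w
  b4 : -w - w ∉ U
  c1 : v ≠ 0
  c2 : v - w ≠ 0
  c3 : v + w ≠ 0
  c4 : (0 : G) ∉ U
  d : ∀ s ∈ S, s ≠ 0 → s ≠ v → v ≠ v - s ∧ v - w ≠ v - s ∧ v + w ≠ v - s ∧ v - s ∉ U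
  e : ∀ s ∈ S, s ≠ 0 → s ≠ v → 0 ≠ v - s - w ∧ v ≠ v - s - w ∧ v - w ≠ v - s - w ∧
    v + w ≠ v - s - w ∧ v - s - w ∉ U

variable {v w : G} {S U : Finset G} {a C : ℝ}

theorem Qd_nonneg (ha : 0 < a) (hC : 0 ≤ C) (y : G) (hy : y ≠ v) :
    0 ≤ (Qd a C v w U).coeff y := by
  rw [coeff_Qd, if_neg (Ne.symm hy)]
  split_ifs <;> linarith

theorem Qd_v (ha : 0 < a) (hC : 0 ≤ C) : -a ≤ (Qd a C v w U).coeff v := by
  rw [coeff_Qd, if_pos rfl]
  split_ifs <;> linarith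

theorem Qd_m (hw : w ≠ 0) (ha : 0 < a) (hC : 0 ≤ C) :
    2 * a ≤ (Qd a C v w U).coeff (v - w) := by
  have h1 : v ≠ v - w := by
    intro h
    exact hw (sub_eq_self.1 h.symm)
  rw [coeff_Qd, if_neg h1, if_pos (rfl : v - w = v - w)]
  split_ifs <;> linarith

theorem Qd_p (hw : w ≠ 0) (ha : 0 < a) (hC : 0 ≤ C) :
    2 * a ≤ (Qd a C v w U).coeff (v + w) := by
  have h1 : v ≠ v + w := by
    intro h
    exact hw (by simpa using h)
  rw [coeff_Qd, if_neg h1, if_pos (rfl : v + w = v + w)]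
  split_ifs <;> linarith

theorem B1_coeff (Q : AddMonoidAlgebra ℝ G) (y : G) :
    (B1 w * Q).coeff y = Q.coeff y + Q.coeff (y - w) := by
  rw [B1, coeff_two_mul, one_mul, one_mul]

theorem B2_coeff (Q : AddMonoidAlgebra ℝ G) (y : G) :
    (B2 w * Q).coeff y = 2 * Q.coeff y + 3 * Q.coeff (y - w) := by
  rw [B2, coeff_two_mul]

theorem comb_nonneg (hw : w ≠ 0) (ha : 0 < a) (hC : 0 ≤ C) (y : G) :
    0 ≤ (B1 w * Qd a C v w U).coeff y ∧ 0 ≤ (B2 w * Qd a C v w U).coeff y := by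
  rw [B1_coeff, B2_coeff]
  by_cases h1 : y = v
  · have h2 := Qd_v (v := v) (w := w) (U := U) ha hC
    have h3 := Qd_m (v := v) (U := U) hw ha hC
    rw [h1]
    constructor <;> linarith
  · by_cases h4 : y - w = v
    · have h5 : y = v + w := by rw [← h4]; abel
      have h2 := Qd_v (v := v) (w := w) (U := U) ha hC
      have h3 := Qd_p (v := v) (U := U) hw ha hC
      rw [h4, h5]
      constructor <;> linarith
    · have h2 := Qd_nonneg (w := w) (U := U) ha hC y h1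
      have h3 := Qd_nonneg (w := w) (U := U) ha hC (y - w) h4
      constructor <;> linarith

theorem Qd_zero (g : Gen v w S U) : (Qd a C v w U).coeff 0 = 1 := by
  rw [coeff_Qd, if_pos rfl, if_neg g.c1, if_neg g.c2, if_neg g.c3, if_neg g.c4]
  ring

theorem Qd_nw (g : Gen v w S U) : (Qd a C v w U).coeff (-w) = 0 := by
  rw [coeff_Qd, if_neg (neg_ne_zero.2 g.w0).symm, if_neg g.a1, if_neg g.a2, if_neg g.a3,
    if_neg g.a4]
  ring

theorem Qd_nww (g : Gen v w S U) : (Qd a C v w U).coeff (-w - w) = 0 := by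
  rw [coeff_Qd, if_neg g.b0, if_neg g.b1, if_neg g.b2, if_neg g.b3, if_neg g.b4]
  ring

theorem comb_pos (g : Gen v w S U) (ha : 0 < a) (hC : 0 ≤ C) :
    Pos (B1 w * Qd a C v w U) ∧ Pos (B2 w * Qd a C v w U) := by
  refine ⟨⟨fun y => (comb_nonneg g.w0 ha hC y).1, 0, ?_⟩,
    ⟨fun y => (comb_nonneg g.w0 ha hC y).2, 0, ?_⟩⟩
  · rw [B1_coeff, zero_sub, Qd_zero g, Qd_nw g]
    norm_num
  · rw [B2_coeff, zero_sub, Qd_zero g, Qd_nw g]
    norm_num

theorem Qd_vs (g : Gen v w S U) {s : G} (hs : s ∈ S) (h0 : s ≠ 0) (h1 : s ≠ v) :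
    (Qd a C v w U).coeff (v - s) = 0 := by
  obtain ⟨d1, d2, d3, d4⟩ := g.d s hs h0 h1
  have d0 : 0 ≠ v - s := by
    intro h
    exact h1 (sub_eq_zero.1 h.symm).symm
  rw [coeff_Qd, if_neg d0, if_neg d1, if_neg d2, if_neg d3, if_neg d4]
  ring

theorem Qd_vsw (g : Gen v w S U) {s : G} (hs : s ∈ S) (h0 : s ≠ 0) (h1 : s ≠ v) :
    (Qd a C v w U).coeff (v - s - w) = 0 := by
  obtain ⟨d0, d1, d2, d3, d4⟩ := g.e s hs h0 h1
  rw [coeff_Qd, if_neg d0, if_neg d1, if_neg d2, if_neg d3, if_neg d4]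
  ring

/-- The product `Q F` is nonnegative and vanishes at `v`. -/
theorem QF_pos (g : Gen v w S U) (ha : 0 < a) (hC : 0 ≤ C) (F : AddMonoidAlgebra ℝ G)
    (hF : Pos F) (hF0 : F.coeff 0 = 1) (hFv : F.coeff v = a)
    (hS : ∀ s, F.coeff s ≠ 0 → s ∈ S) (hU : ∀ u ∈ U, v - u ∉ S)
    (hex : ∀ s, F.coeff s ≠ 0 → s ≠ 0 → ∃ s', v + s - s' ∈ U ∧ a * F.coeff s ≤ C * F.coeff s') :
    Pos (Qd a C v w U * F) ∧ (Qd a C v w U * F).coeff v = 0 := by
  have hz : ∀ x, x ∉ S → F.coeff x = 0 := by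
    intro x hx
    by_contra h
    exact hx (hS x h)
  have hv0 : (Qd a C v w U * F).coeff v = 0 := by
    rw [coeff_Qd_mul, sub_self, hF0, hFv]
    have e1 : v - (v - w) = w := by abel
    have e2 : v - (v + w) = -w := by abel
    rw [e1, e2, hz w g.sw, hz _ g.snw, Finset.sum_eq_zero]
    · ring
    · intro u hu
      rw [hz _ (hU u hu), mul_zero]
  have hge : ∀ y, y ≠ v → F.coeff y ≤ (Qd a C v w U * F).coeff y := by
    intro y hy
    rw [coeff_Qd_mul]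
    have t1 : 0 ≤ 2 * a * F.coeff (y - (v - w)) := mul_nonneg (by linarith) (hF.1 _)
    have t2 : 0 ≤ 2 * a * F.coeff (y - (v + w)) := mul_nonneg (by linarith) (hF.1 _)
    have t3 : a * F.coeff (y - v) ≤ ∑ u ∈ U, C * F.coeff (y - u) := by
      by_cases h0 : F.coeff (y - v) = 0
      · rw [h0, mul_zero]
        exact Finset.sum_nonneg fun u _ => mul_nonneg hC (hF.1 _)
      · obtain ⟨s', hs1, hs2⟩ := hex (y - v) h0 (sub_ne_zero.2 hy)
        refine hs2.trans ?_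
        have e3 : y - (v + (y - v) - s') = s' := by abel
        have := Finset.single_le_sum (f := fun u => C * F.coeff (y - u))
          (fun u _ => mul_nonneg hC (hF.1 _)) hs1
        simpa only [e3] using this
    linarith
  refine ⟨⟨fun y => ?_, 0, ?_⟩, hv0⟩
  · by_cases hy : y = v
    · rw [hy, hv0]
    · exact (hF.1 y).trans (hge y hy)
  · refine lt_of_lt_of_le ?_ (hge 0 g.c1.symm)
    rw [hF0]
    exact one_pos

/-- The relation for one `F`. -/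
theorem keyOne (h : IsPsi Ψ) (g : Gen v w S U) (ha : 0 < a) (hC : 0 ≤ C)
    (F : AddMonoidAlgebra ℝ G)
    (hF : Pos F) (hF0 : F.coeff 0 = 1) (hFv : F.coeff v = a)
    (hS : ∀ s, F.coeff s ≠ 0 → s ∈ S) (hU : ∀ u ∈ U, v - u ∉ S)
    (hex : ∀ s, F.coeff s ≠ 0 → s ≠ 0 → ∃ s', v + s - s' ∈ U ∧ a * F.coeff s ≤ C * F.coeff s') :
    (Qp Ψ w (Qd a C v w U)).coeff 0 * (Ψ F).coeff v +
      (Qp Ψ w (Qd a C v w U)).coeff v * (Ψ F).coeff 0 = 0 := by
  obtain ⟨hp, hpv⟩ := QF_pos g ha hC F hF hF0 hFv hS hU hex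
  obtain ⟨c1, c2⟩ := comb_pos g ha hC (a := a) (C := C)
  refine keyA h g.w0 g.c1 _ F hF c1 c2 hp hpv ?_
  intro s hs hs0 hsv
  rw [B1_coeff, B2_coeff, Qd_vs g (hS s hs) hs0 hsv, Qd_vsw g (hS s hs) hs0 hsv]
  norm_num

theorem Qp_Qd_ne (h : IsPsi Ψ) [IsAddTorsionFree G] (g : Gen v w S U) (ha : 0 < a) (hC : 0 ≤ C) :
    (Qp Ψ w (Qd a C v w U)).coeff 0 ≠ 0 := by
  obtain ⟨c1, c2⟩ := comb_pos g ha hC (a := a) (C := C)
  refine Qp_ne h g.w0 _ c1 c2 ?_ ?_ ?_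
  · rw [B1_coeff, zero_sub, Qd_zero g, Qd_nw g]
    norm_num
  · rw [B1_coeff, Qd_nw g, Qd_nww g]
    norm_num
  · rw [B2_coeff, Qd_nw g, Qd_nww g]
    norm_num

end Pool.Agent.Q211.SP
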