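import Pool.Agent.Q211.SP.KeyB

/-!
# The ratio depends only on the ratio
-/

set_option autoImplicit false

namespace Pool.Agent.Q211.SP

open AddMonoidAlgebra

variable {G : Type*} [AddCommGroup G] [DecidableEq G]
  {Ψ : AddMonoidAlgebra ℝ G → AddMonoidAlgebra ℝ G}

theorem exists_gen0 [Infinite G] [IsAddTorsionFree G] (E : Finset G) :
    ∃ w : G, w ∉ E ∧ w + w ∉ E ∧ w + w + w ∉ E := by
  have h2 : ∀ n : ℕ, n ≠ 0 → {w : G | n • w ∈ E}.Finite := by
    intro n hn
    exact Set.Finite.preimage ((nsmul_right_injective hn).injOn) E.finite_toSet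
  have h := ((h2 1 one_ne_zero).union (h2 2 two_ne_zero)).union (h2 3 three_ne_zero)
  obtain ⟨w, hw⟩ := h.exists_notMem
  refine ⟨w, ?_, ?_, ?_⟩
  · intro h1
    exact hw (Or.inl (Or.inl (by simpa using h1)))
  · intro h1
    exact hw (Or.inl (Or.inr (by simpa [two_nsmul] using h1)))
  · intro h1
    refine hw (Or.inr ?_)
    have : (3 : ℕ) • w = w + w + w := by rw [succ_nsmul, two_nsmul]
    show (3 : ℕ) • w ∈ E
    rw [this]
    exact h1

theorem exists_gen [Infinite G] [IsAddTorsionFree G] {v : G} (hv : v ≠ 0) (S U : Finset G)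
    (h0 : (0 : G) ∈ S) (hvS : v ∈ S) (hU : ∀ u ∈ U, v - u ∉ S) : ∃ w : G, Gen v w S U := by
  set E : Finset G := S ∪ S.image (fun s => -s) ∪ U.image (fun u => -u) ∪
    S.image (fun s => v - s) ∪ (S ×ˢ U).image (fun p => v - p.1 - p.2) with hE
  have e1 : ∀ x ∉ E, ∀ s ∈ S, x ≠ s := by
    rintro x hx s hs rfl
    apply hx
    rw [hE]
    simp only [Finset.mem_union]
    exact Or.inl (Or.inl (Or.inl (Or.inl hs)))
  have e2 : ∀ x ∉ E, ∀ s ∈ S, x ≠ -s := by
    rintro x hx s hs rfl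
    apply hx
    rw [hE]
    simp only [Finset.mem_union]
    exact Or.inl (Or.inl (Or.inl (Or.inr (Finset.mem_image_of_mem _ hs))))
  have e3 : ∀ x ∉ E, ∀ u ∈ U, x ≠ -u := by
    rintro x hx s hs rfl
    apply hx
    rw [hE]
    simp only [Finset.mem_union]
    exact Or.inl (Or.inl (Or.inr (Finset.mem_image_of_mem _ hs)))
  have e4 : ∀ x ∉ E, ∀ s ∈ S, x ≠ v - s := by
    rintro x hx s hs rfl
    apply hx
    rw [hE]
    simp only [Finset.mem_union]
    exact Or.inl (Or.inr (Finset.mem_image_of_mem _ hs))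
  have e5 : ∀ x ∉ E, ∀ s ∈ S, ∀ u ∈ U, x ≠ v - s - u := by
    rintro x hx s hs u hu rfl
    apply hx
    rw [hE]
    simp only [Finset.mem_union]
    exact Or.inr (Finset.mem_image.2 ⟨(s, u), Finset.mem_product.2 ⟨hs, hu⟩, rfl⟩)
  obtain ⟨w, w1, w2, w3⟩ := exists_gen0 E
  refine ⟨w, ?_⟩
  constructor
  · exact e1 w w1 0 h0
  · intro h
    exact e1 w w1 w h rfl
  · intro h
    exact e2 w w1 (-w) h (neg_neg w).symm
  · intro h
    exact e2 w w1 v hvS (by rw [h, neg_neg])
  · intro h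
    rw [sub_eq_add_neg] at h
    exact hv (by simpa using h)
  · intro h
    apply e2 (w + w) w2 v hvS
    have : v = -w - w := by rw [← h]; abel
    rw [this]
    abel
  · intro h
    exact e3 w w1 (-w) h (neg_neg w).symm
  · intro h
    apply e1 (w + w) w2 0 h0
    have : w + w = -(-w - w) := by abel
    rw [this, ← h, neg_zero]
  · intro h
    apply e2 (w + w) w2 v hvS
    rw [h]
    abel
  · intro h
    apply e2 w w1 v hvS
    have : v = -w := by
      have h5 : v = (v - w) + w := by abel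
      rw [h5, h]
      abel
    rw [this, neg_neg]
  · intro h
    apply e2 (w + w + w) w3 v hvS
    have : v = -w - w - w := by rw [← h]; abel
    rw [this]
    abel
  · intro h
    apply e3 (w + w) w2 _ h
    abel
  · exact hv
  · intro h
    exact e1 w w1 v hvS (sub_eq_zero.1 h).symm
  · intro h
    apply e2 w w1 v hvS
    exact eq_neg_of_add_eq_zero_right h
  · intro h
    exact hU 0 h (by rwa [sub_zero])
  · intro s hs hs0 hsv
    refine ⟨?_, ?_, ?_, ?_⟩
    · intro h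
      exact hs0 (sub_eq_self.1 h.symm)
    · intro h
      exact e1 w w1 s hs (sub_right_injective h)
    · intro h
      rw [sub_eq_add_neg] at h
      exact e2 w w1 s hs (add_left_cancel h)
    · intro h
      exact hU _ h (by rwa [sub_sub_cancel])
  · intro s hs hs0 hsv
    refine ⟨?_, ?_, ?_, ?_, ?_⟩
    · intro h
      exact e4 w w1 s hs (sub_eq_zero.1 h.symm).symm
    · intro h
      apply e2 w w1 s hs
      have h5 : w = (v - s) - (v - s - w) := by abel
      rw [h5, ← h]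
      abel
    · intro h
      apply hs0
      have h5 : s = (v - w) - (v - s - w) := by abel
      rw [h5, ← h, sub_self]
    · intro h
      apply e2 (w + w) w2 s hs
      have h5 : w + w = (v + w) - (v - s - w) - s := by abel
      rw [h5, ← h]
      abel
    · intro h
      exact e5 w w1 s hs _ h (by abel)

/-- The pair lemma. -/
theorem pair (h : IsPsi Ψ) [Infinite G] [IsAddTorsionFree G] {v : G} (hv : v ≠ 0) {a : ℝ}
    (ha : 0 < a) (F1 F2 : AddMonoidAlgebra ℝ G) (hF1 : Pos F1) (hF2 : Pos F2)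
    (h10 : F1.coeff 0 = 1) (h1v : F1.coeff v = a) (h20 : F2.coeff 0 = 1) (h2v : F2.coeff v = a)
    (g1 : ∀ s, F1.coeff s ≠ 0 → s ≠ 0 →
      ∃ s', F1.coeff s' ≠ 0 ∧ F1.coeff (s' - s) = 0 ∧ F2.coeff (s' - s) = 0)
    (g2 : ∀ s, F2.coeff s ≠ 0 → s ≠ 0 →
      ∃ s', F2.coeff s' ≠ 0 ∧ F1.coeff (s' - s) = 0 ∧ F2.coeff (s' - s) = 0) :
    (Ψ F1).coeff v * (Ψ F2).coeff 0 = (Ψ F2).coeff v * (Ψ F1).coeff 0 := by
  set S : Finset G := F1.coeff.support ∪ F2.coeff.support with hS
  have hmS : ∀ x, x ∈ S ↔ F1.coeff x ≠ 0 ∨ F2.coeff x ≠ 0 := by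
    intro x
    rw [hS, Finset.mem_union, Finsupp.mem_support_iff, Finsupp.mem_support_iff]
  set U : Finset G := ((S ×ˢ S).filter (fun p => p.2 - p.1 ∉ S)).image
    (fun p => v + p.1 - p.2) with hU
  have hUS : ∀ u ∈ U, v - u ∉ S := by
    intro u hu
    rw [hU, Finset.mem_image] at hu
    obtain ⟨⟨s, s'⟩, hp, rfl⟩ := hu
    rw [Finset.mem_filter] at hp
    have e : v - (v + s - s') = s' - s := by abel
    simp only [e]
    exact hp.2
  have h0S : (0 : G) ∈ S := (hmS 0).2 (Or.inl (by rw [h10]; exact one_ne_zero))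
  have hvS : v ∈ S := (hmS v).2 (Or.inl (by rw [h1v]; exact ha.ne'))
  obtain ⟨w, g⟩ := exists_gen hv S U h0S hvS hUS
  set C : ℝ := ∑ p ∈ S ×ˢ S, (a * F1.coeff p.1 / F1.coeff p.2 + a * F2.coeff p.1 / F2.coeff p.2)
    with hC
  have hterm : ∀ p ∈ S ×ˢ S,
      0 ≤ a * F1.coeff p.1 / F1.coeff p.2 + a * F2.coeff p.1 / F2.coeff p.2 := by
    intro p _
    have := hF1.1 p.1
    have := hF1.1 p.2
    have := hF2.1 p.1
    have := hF2.1 p.2
    positivity
  have hC0 : 0 ≤ C := Finset.sum_nonneg hterm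
  have hC1 : ∀ s s', F1.coeff s ≠ 0 → F1.coeff s' ≠ 0 → a * F1.coeff s ≤ C * F1.coeff s' := by
    intro s s' hs hs'
    have h1 : a * F1.coeff s / F1.coeff s' + a * F2.coeff s / F2.coeff s' ≤ C :=
      Finset.single_le_sum hterm
        (Finset.mem_product.2 ⟨(hmS s).2 (Or.inl hs), (hmS s').2 (Or.inl hs')⟩ :
          (s, s') ∈ S ×ˢ S)
    have h2 : 0 ≤ a * F2.coeff s / F2.coeff s' := by
      have := hF2.1 s
      have := hF2.1 s'
      positivity
    have h3 : 0 < F1.coeff s' := (hF1.pos_iff s').2 hs'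
    rw [← div_le_iff₀ h3]
    linarith
  have hC2 : ∀ s s', F2.coeff s ≠ 0 → F2.coeff s' ≠ 0 → a * F2.coeff s ≤ C * F2.coeff s' := by
    intro s s' hs hs'
    have h1 : a * F1.coeff s / F1.coeff s' + a * F2.coeff s / F2.coeff s' ≤ C :=
      Finset.single_le_sum hterm
        (Finset.mem_product.2 ⟨(hmS s).2 (Or.inr hs), (hmS s').2 (Or.inr hs')⟩ :
          (s, s') ∈ S ×ˢ S)
    have h2 : 0 ≤ a * F1.coeff s / F1.coeff s' := by
      have := hF1.1 s
      have := hF1.1 s'
      positivity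
    have h3 : 0 < F2.coeff s' := (hF2.pos_iff s').2 hs'
    rw [← div_le_iff₀ h3]
    linarith
  have hmU : ∀ s s', s ∈ S → s' ∈ S → s' - s ∉ S → v + s - s' ∈ U := by
    intro s s' hs hs' hn
    rw [hU]
    exact Finset.mem_image.2 ⟨(s, s'), Finset.mem_filter.2 ⟨Finset.mem_product.2 ⟨hs, hs'⟩, hn⟩,
      rfl⟩
  have k1 := keyOne h g ha hC0 F1 hF1 h10 h1v (fun s hs => (hmS s).2 (Or.inl hs)) hUS (by
    intro s hs hs0
    obtain ⟨s', q1, q2, q3⟩ := g1 s hs hs0
    refine ⟨s', hmU s s' ((hmS s).2 (Or.inl hs)) ((hmS s').2 (Or.inl q1)) ?_, hC1 s s' hs q1⟩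
    rw [hmS]
    tauto)
  have k2 := keyOne h g ha hC0 F2 hF2 h20 h2v (fun s hs => (hmS s).2 (Or.inr hs)) hUS (by
    intro s hs hs0
    obtain ⟨s', q1, q2, q3⟩ := g2 s hs hs0
    refine ⟨s', hmU s s' ((hmS s).2 (Or.inr hs)) ((hmS s').2 (Or.inr q1)) ?_, hC2 s s' hs q1⟩
    rw [hmS]
    tauto)
  have k3 := Qp_Qd_ne h g ha hC0
  apply mul_left_cancel₀ k3
  linear_combination (Ψ F2).coeff 0 * k1 - (Ψ F1).coeff 0 * k2

/-- A finite nonempty set of a torsion free group is not translation invariant. -/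
theorem not_invariant [IsAddTorsionFree G] (T : Finset G) (hT : T.Nonempty) {s : G} (hs : s ≠ 0) :
    ∃ s' ∈ T, s' - s ∉ T := by
  by_contra hcon
  push Not at hcon
  have h1 : T.image (fun x => x - s) ⊆ T := by
    intro y hy
    obtain ⟨x, hx, rfl⟩ := Finset.mem_image.1 hy
    exact hcon x hx
  have hinj : Function.Injective (fun x : G => x - s) := sub_left_injective
  have h2 : T.image (fun x => x - s) = T := by
    apply Finset.eq_of_subset_of_card_le h1
    rw [Finset.card_image_of_injective _ hinj]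
  have h3 : ∑ x ∈ T, x = ∑ x ∈ T, (x - s) := by
    conv_lhs => rw [← h2]
    rw [Finset.sum_image (fun x _ y _ hxy => hinj hxy)]
  rw [Finset.sum_sub_distrib, Finset.sum_const] at h3
  have h4 : T.card • s = 0 := by
    have : ∑ x ∈ T, x - (∑ x ∈ T, x - T.card • s) = 0 := by rw [← h3, sub_self]
    rwa [sub_sub_cancel] at this
  have h5 : T.card ≠ 0 := Finset.card_ne_zero.2 hT
  exact hs ((nsmul_eq_zero_iff_right h5).1 h4)

end Pool.Agent.Q211.SP
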