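import Pool.Agent.Q211.SP.KeyC

/-!
# Linearity of the ratio function
-/

set_option autoImplicit false

namespace Pool.Agent.Q211.SP

open AddMonoidAlgebra

variable {G : Type*} [AddCommGroup G] [DecidableEq G]
  {Ψ : AddMonoidAlgebra ℝ G → AddMonoidAlgebra ℝ G}

/-- The comparison element `1 + a x^v + x^t`. -/
noncomputable def Fz (a : ℝ) (v t : G) : AddMonoidAlgebra ℝ G :=
  AddMonoidAlgebra.single 0 1 + AddMonoidAlgebra.single v a + AddMonoidAlgebra.single t 1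

theorem coeff_Fz (a : ℝ) (v t : G) (y : G) :
    (Fz a v t).coeff y = (if 0 = y then 1 else 0) + (if v = y then a else 0) +
      (if t = y then 1 else 0) := by
  rw [Fz]
  simp only [coeff_add, coeff_single, Finsupp.add_apply, Finsupp.single_apply]

theorem Fz_pos {a : ℝ} (ha : 0 < a) (v t : G) : Pos (Fz a v t) := by
  refine ⟨fun x => ?_, 0, ?_⟩
  · rw [coeff_Fz]
    split_ifs <;> linarith
  · rw [coeff_Fz, if_pos rfl]
    split_ifs <;> linarith

/-- For generic `t` the element `F` compares to `Fz a v t`. -/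
theorem compare (h : IsPsi Ψ) [Infinite G] [IsAddTorsionFree G] {v : G} (hv : v ≠ 0) {a : ℝ}
    (ha : 0 < a) (F : AddMonoidAlgebra ℝ G) (hF : Pos F) (h0 : F.coeff 0 = 1)
    (hFv : F.coeff v = a) :
    ∃ E : Finset G, ∀ t ∉ E,
      (Ψ F).coeff v * (Ψ (Fz a v t)).coeff 0 = (Ψ (Fz a v t)).coeff v * (Ψ F).coeff 0 := by
  set S : Finset G := F.coeff.support with hS
  have h0S : (0 : G) ∈ S := by
    rw [hS, Finsupp.mem_support_iff, h0]
    exact one_ne_zero
  have hvS : v ∈ S := by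
    rw [hS, Finsupp.mem_support_iff, hFv]
    exact ha.ne'
  refine ⟨(S ×ˢ S).image (fun p => p.1 - p.2) ∪ S.image (fun s => v + s) ∪
    S.image (fun s => -s) ∪ S, ?_⟩
  intro t ht
  simp only [Finset.mem_union, not_or] at ht
  obtain ⟨⟨⟨t1, t2⟩, t3⟩, t4⟩ := ht
  have s1 : ∀ s ∈ S, ∀ s' ∈ S, s' - s ≠ t := by
    rintro s hs s' hs' rfl
    exact t1 (Finset.mem_image.2 ⟨(s', s), Finset.mem_product.2 ⟨hs', hs⟩, rfl⟩)
  have s2 : ∀ s ∈ S, t ≠ v + s := by
    rintro s hs rfl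
    exact t2 (Finset.mem_image_of_mem _ hs)
  have s3 : ∀ s ∈ S, t ≠ -s := by
    rintro s hs rfl
    exact t3 (Finset.mem_image_of_mem _ hs)
  have s4 : ∀ s ∈ S, t ≠ s := by
    rintro s hs rfl
    exact t4 hs
  have hmem : ∀ s, F.coeff s = 0 ↔ s ∉ S := by
    intro s
    rw [hS, Finsupp.mem_support_iff, not_not]
  have ht0 : t ≠ 0 := s4 0 h0S
  have htv : t ≠ v := s4 v hvS
  refine pair h hv ha F (Fz a v t) hF (Fz_pos ha v t) h0 hFv ?_ ?_ ?_ ?_
  · rw [coeff_Fz, if_pos rfl, if_neg hv, if_neg ht0]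
    ring
  · rw [coeff_Fz, if_neg hv.symm, if_pos rfl, if_neg htv]
    ring
  · intro s hs hs0
    have hsS : s ∈ S := by
      rw [hS, Finsupp.mem_support_iff]
      exact hs
    obtain ⟨s', q1, q2⟩ := not_invariant S ⟨0, h0S⟩ hs0
    refine ⟨s', Finsupp.mem_support_iff.1 q1, (hmem _).2 q2, ?_⟩
    rw [coeff_Fz, if_neg, if_neg, if_neg (s1 s hsS s' q1).symm]
    · ring
    · intro h
      rw [← h] at q2
      exact q2 hvS
    · intro h
      rw [← h] at q2
      exact q2 h0S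
  · intro s hs hs0
    have hs' : s = v ∨ s = t := by
      by_contra hcon
      rw [not_or] at hcon
      apply hs
      rw [coeff_Fz, if_neg (Ne.symm hs0), if_neg (Ne.symm hcon.1), if_neg (Ne.symm hcon.2)]
      ring
    rcases hs' with rfl | rfl
    · refine ⟨t, ?_, ?_, ?_⟩
      · rw [coeff_Fz, if_neg ht0.symm, if_neg htv.symm, if_pos rfl]
        norm_num
      · rw [hmem]
        intro hc
        exact s2 _ hc (by abel)
      · rw [coeff_Fz, if_neg (sub_ne_zero.2 htv).symm, if_neg, if_neg]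
        · ring
        · intro hc
          exact hv (sub_eq_self.1 hc.symm)
        · intro hc
          exact s2 _ hvS (sub_eq_iff_eq_add.1 hc.symm)
    · refine ⟨0, ?_, ?_, ?_⟩
      · rw [coeff_Fz, if_pos rfl, if_neg hv, if_neg ht0]
        norm_num
      · rw [hmem, zero_sub]
        intro hc
        exact s3 _ hc (neg_neg s).symm
      · rw [coeff_Fz, zero_sub, if_neg (neg_ne_zero.2 ht0).symm, if_neg, if_neg]
        · ring
        · intro hc
          have : (2 : ℕ) • s = 0 := by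
            rw [two_nsmul]
            nth_rewrite 1 [hc]
            exact neg_add_cancel s
          exact nsmul_ne ht0 two_ne_zero this
        · intro hc
          exact s3 v hvS (by rw [hc, neg_neg])

/-- The ratio depends only on `v` and the ratio. -/
theorem ratio (h : IsPsi Ψ) [Infinite G] [IsAddTorsionFree G] {v : G} (hv : v ≠ 0) {a : ℝ}
    (ha : 0 < a) (F1 F2 : AddMonoidAlgebra ℝ G) (hF1 : Pos F1) (hF2 : Pos F2)
    (h10 : F1.coeff 0 = 1) (h1v : F1.coeff v = a) (h20 : F2.coeff 0 = 1) (h2v : F2.coeff v = a) :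
    (Ψ F1).coeff v * (Ψ F2).coeff 0 = (Ψ F2).coeff v * (Ψ F1).coeff 0 := by
  obtain ⟨E1, hE1⟩ := compare h hv ha F1 hF1 h10 h1v
  obtain ⟨E2, hE2⟩ := compare h hv ha F2 hF2 h20 h2v
  obtain ⟨t, ht⟩ := Infinite.exists_notMem_finset (E1 ∪ E2)
  rw [Finset.mem_union, not_or] at ht
  have k1 := hE1 t ht.1
  have k2 := hE2 t ht.2
  by_cases ht0 : (Ψ (Fz a v t)).coeff 0 = 0
  · exfalso
    rw [h.supp _ (Fz_pos ha v t), coeff_Fz, if_pos rfl] at ht0
    split_ifs at ht0 <;> linarith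
  · apply mul_left_cancel₀ ht0
    linear_combination (Ψ F2).coeff 0 * k1 - (Ψ F1).coeff 0 * k2

/-- `1 + a x^v`. -/
noncomputable def Lz (a : ℝ) (v : G) : AddMonoidAlgebra ℝ G :=
  AddMonoidAlgebra.single 0 1 + AddMonoidAlgebra.single v a

omit [DecidableEq G] in
theorem coeff_Lz [DecidableEq G] (a : ℝ) (v : G) (y : G) :
    (Lz a v).coeff y = (if 0 = y then 1 else 0) + (if v = y then a else 0) := by
  rw [Lz]
  simp only [coeff_add, coeff_single, Finsupp.add_apply, Finsupp.single_apply]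

theorem Lz_pos {a : ℝ} (ha : 0 < a) (v : G) : Pos (Lz a v) := by
  refine ⟨fun x => ?_, 0, ?_⟩
  · rw [coeff_Lz]
    split_ifs <;> linarith
  · rw [coeff_Lz, if_pos rfl]
    split_ifs <;> linarith

/-- The ratio function. -/
noncomputable def ph (Ψ : AddMonoidAlgebra ℝ G → AddMonoidAlgebra ℝ G) (v : G) (a : ℝ) : ℝ :=
  (Ψ (Lz a v)).coeff v / (Ψ (Lz a v)).coeff 0

omit [DecidableEq G] in
theorem Lz_zero_pos (h : IsPsi Ψ) {a : ℝ} (ha : 0 < a) (v : G) : 0 < (Ψ (Lz a v)).coeff 0 := by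
  classical
  apply h.pos (Lz_pos ha v)
  rw [coeff_Lz, if_pos rfl]
  split_ifs <;> linarith

omit [DecidableEq G] in
theorem ph_pos (h : IsPsi Ψ) {a : ℝ} (ha : 0 < a) (v : G) : 0 < ph Ψ v a := by
  classical
  apply div_pos _ (Lz_zero_pos h ha v)
  apply h.pos (Lz_pos ha v)
  rw [coeff_Lz, if_pos (rfl : v = v)]
  split_ifs <;> linarith

theorem ratio_ph (h : IsPsi Ψ) [Infinite G] [IsAddTorsionFree G] {v : G} (hv : v ≠ 0) {a : ℝ}
    (ha : 0 < a) (F : AddMonoidAlgebra ℝ G) (hF : Pos F)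
    (h0 : F.coeff 0 = 1) (hFv : F.coeff v = a) :
    (Ψ F).coeff v = ph Ψ v a * (Ψ F).coeff 0 := by
  have := ratio h hv ha F (Lz a v) hF (Lz_pos ha v) h0 hFv
    (by rw [coeff_Lz, if_pos rfl, if_neg hv, add_zero])
    (by rw [coeff_Lz, if_neg hv.symm, if_pos rfl, zero_add])
  have h1 := Lz_zero_pos h ha v
  rw [ph]
  field_simp
  linarith

theorem ph_add (h : IsPsi Ψ) [Infinite G] [IsAddTorsionFree G] {v : G} (hv : v ≠ 0) {a b : ℝ}
    (ha : 0 < a) (hb : 0 < b) : ph Ψ v (a + b) = ph Ψ v a + ph Ψ v b := by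
  have hvv : v + v ≠ 0 := by
    rw [← two_nsmul]
    exact nsmul_ne hv two_ne_zero
  have hpp : Pos (Lz a v * Lz b v) := (Lz_pos ha v).mul (Lz_pos hb v)
  have c : ∀ (x : ℝ) (A : AddMonoidAlgebra ℝ G) (y : G), (Lz x v * A).coeff y =
      A.coeff y + x * A.coeff (y - v) := by
    intro x A y
    rw [Lz, coeff_two_mul, one_mul]
  have hnv : v ≠ -v := by
    intro h1
    apply hvv
    nth_rewrite 1 [h1]
    exact neg_add_cancel v
  have k := ratio_ph h hv (add_pos ha hb) (Lz a v * Lz b v) hpp (by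
    rw [c, coeff_Lz, coeff_Lz, if_pos rfl, if_neg hv, zero_sub,
      if_neg (neg_ne_zero.2 hv).symm, if_neg hnv]
    ring) (by
    rw [c, coeff_Lz, coeff_Lz, if_neg hv.symm, if_pos rfl, sub_self, if_pos rfl, if_neg hv]
    ring)
  have l : ∀ x : ℝ, 0 < x → Ψ (Lz x v) = AddMonoidAlgebra.single 0 (1 - (Ψ (Lz x v)).coeff v) +
      AddMonoidAlgebra.single v ((Ψ (Lz x v)).coeff v) := by
    intro x hx
    refine h.two hv (Lz_pos hx v) ?_
    intro y hy hyv
    rw [coeff_Lz, if_neg hy.symm, if_neg hyv.symm, add_zero]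
  have l0 : ∀ x : ℝ, 0 < x → (Ψ (Lz x v)).coeff 0 = 1 - (Ψ (Lz x v)).coeff v := by
    intro x hx
    conv_lhs => rw [l x hx]
    rw [coeff_add, coeff_single, coeff_single, Finsupp.add_apply,
      Finsupp.single_eq_of_ne hv.symm, Finsupp.single_eq_same, add_zero]
  have lm : (Ψ (Lz b v)).coeff (0 - v) = 0 := by
    rw [h.supp _ (Lz_pos hb v), coeff_Lz, zero_sub, if_neg (neg_ne_zero.2 hv).symm, if_neg hnv,
      add_zero]
  rw [h.mul _ _ (Lz_pos ha v) (Lz_pos hb v)] at k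
  have e1 : (Ψ (Lz a v) * Ψ (Lz b v)).coeff v = (Ψ (Lz a v)).coeff 0 * (Ψ (Lz b v)).coeff v +
      (Ψ (Lz a v)).coeff v * (Ψ (Lz b v)).coeff 0 := by
    conv_lhs => rw [l a ha]
    rw [coeff_two_mul, sub_self, ← l0 a ha]
  have e2 : (Ψ (Lz a v) * Ψ (Lz b v)).coeff 0 = (Ψ (Lz a v)).coeff 0 * (Ψ (Lz b v)).coeff 0 := by
    conv_lhs => rw [l a ha]
    rw [coeff_two_mul, lm, mul_zero, add_zero, ← l0 a ha]
  rw [e1, e2] at k
  have pa := Lz_zero_pos h ha v
  have pb := Lz_zero_pos h hb v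
  have ea : (Ψ (Lz a v)).coeff v = ph Ψ v a * (Ψ (Lz a v)).coeff 0 := by
    rw [ph, div_mul_cancel₀ _ pa.ne']
  have eb : (Ψ (Lz b v)).coeff v = ph Ψ v b * (Ψ (Lz b v)).coeff 0 := by
    rw [ph, div_mul_cancel₀ _ pb.ne']
  rw [ea, eb] at k
  have hne : (Ψ (Lz a v)).coeff 0 * (Ψ (Lz b v)).coeff 0 ≠ 0 := (mul_pos pa pb).ne'
  apply mul_right_cancel₀ hne
  linarith

/-- A positive additive function on the positive reals is linear. -/
theorem linear_of_additive (f : ℝ → ℝ) (hf : ∀ a, 0 < a → 0 < f a)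
    (hadd : ∀ a b, 0 < a → 0 < b → f (a + b) = f a + f b) (a : ℝ) (ha : 0 < a) :
    f a = f 1 * a := by
  have hn : ∀ (n : ℕ) (x : ℝ), 0 < x → f ((n + 1 : ℕ) * x) = (n + 1 : ℕ) * f x := by
    intro n x hx
    induction n with
    | zero => simp
    | succ n ih =>
      have : ((n + 1 + 1 : ℕ) : ℝ) * x = ((n + 1 : ℕ) : ℝ) * x + x := by push_cast; ring
      rw [this, hadd _ _ (by positivity) hx, ih]
      push_cast
      ring
  have hmono : ∀ x y, 0 < x → x < y → f x < f y := by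
    intro x y hx hxy
    have : y = x + (y - x) := by ring
    rw [this, hadd _ _ hx (by linarith)]
    have := hf (y - x) (by linarith)
    linarith
  have h1 := hf 1 one_pos
  -- bounds
  have hup : ∀ n : ℕ, ((n + 1 : ℕ) : ℝ) * f a ≤ (((n + 1 : ℕ) : ℝ) * a + 1) * f 1 := by
    intro n
    have hpos : (0 : ℝ) < ((n + 1 : ℕ) : ℝ) * a := by positivity
    obtain ⟨m, hm1, hm2⟩ : ∃ m : ℕ, (m : ℝ) ≤ ((n + 1 : ℕ) : ℝ) * a ∧
        ((n + 1 : ℕ) : ℝ) * a < (m : ℝ) + 1 :=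
      ⟨⌊((n + 1 : ℕ) : ℝ) * a⌋₊, Nat.floor_le hpos.le, Nat.lt_floor_add_one _⟩
    rw [← hn n a ha]
    have h2 : f (((n + 1 : ℕ) : ℝ) * a) < f ((m + 1 : ℕ) * 1) :=
      hmono _ _ hpos (by push_cast at *; linarith)
    rw [hn m 1 one_pos] at h2
    refine h2.le.trans ?_
    apply mul_le_mul_of_nonneg_right _ h1.le
    push_cast at *
    linarith
  have hdn : ∀ n : ℕ, (((n + 1 : ℕ) : ℝ) * a - 1) * f 1 ≤ ((n + 1 : ℕ) : ℝ) * f a := by
    intro n
    have hpos : (0 : ℝ) < ((n + 1 : ℕ) : ℝ) * a := by positivity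
    obtain ⟨m, hm1, hm2⟩ : ∃ m : ℕ, (m : ℝ) ≤ ((n + 1 : ℕ) : ℝ) * a ∧
        ((n + 1 : ℕ) : ℝ) * a < (m : ℝ) + 1 :=
      ⟨⌊((n + 1 : ℕ) : ℝ) * a⌋₊, Nat.floor_le hpos.le, Nat.lt_floor_add_one _⟩
    rw [← hn n a ha]
    rcases Nat.eq_zero_or_pos m with h0 | h0
    · rw [h0] at hm2
      have h3 : (((n + 1 : ℕ) : ℝ) * a - 1) * f 1 ≤ 0 := by
        apply mul_nonpos_of_nonpos_of_nonneg _ h1.le
        push_cast at *
        linarith
      exact h3.trans (hf _ hpos).le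
    · obtain ⟨k, rfl⟩ : ∃ k, m = k + 1 := ⟨m - 1, by omega⟩
      have h2 : f ((k + 1 : ℕ) * 1) ≤ f (((n + 1 : ℕ) : ℝ) * a) := by
        rcases hm1.eq_or_lt with h4 | h4
        · rw [mul_one, h4]
        · apply (hmono _ _ (by positivity) _).le
          rw [mul_one]
          exact h4
      rw [hn k 1 one_pos] at h2
      refine le_trans ?_ h2
      apply mul_le_mul_of_nonneg_right _ h1.le
      push_cast at *
      linarith
  apply le_antisymm
  · by_contra hc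
    push Not at hc
    obtain ⟨n, hn'⟩ := exists_nat_gt (f 1 / (f a - f 1 * a))
    have h5 : 0 < f a - f 1 * a := by linarith
    rw [div_lt_iff₀ h5] at hn'
    have h6 := hup n
    push_cast at h6
    nlinarith
  · by_contra hc
    push Not at hc
    obtain ⟨n, hn'⟩ := exists_nat_gt (f 1 / (f 1 * a - f a))
    have h5 : 0 < f 1 * a - f a := by linarith
    rw [div_lt_iff₀ h5] at hn'
    have h6 := hdn n
    push_cast at h6
    nlinarith

end Pool.Agent.Q211.SP
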