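import Pool.Agent.Q211.SP.KeyD

/-!
# The form of the map
-/

set_option autoImplicit false

namespace Pool.Agent.Q211.SP

open AddMonoidAlgebra

variable {G : Type*} [AddCommGroup G] {Ψ : AddMonoidAlgebra ℝ G → AddMonoidAlgebra ℝ G}

/-- The weight. -/
noncomputable def lam (Ψ : AddMonoidAlgebra ℝ G → AddMonoidAlgebra ℝ G) (v : G) : ℝ := ph Ψ v 1

theorem lam_pos (h : IsPsi Ψ) (v : G) : 0 < lam Ψ v := by
  classical
  exact ph_pos h one_pos v

theorem lam_zero (h : IsPsi Ψ) : lam Ψ 0 = 1 := by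
  classical
  rw [lam, ph]
  exact div_self (Lz_zero_pos h one_pos 0).ne'

/-- The ratio formula. -/
theorem ratio_gen (h : IsPsi Ψ) [Infinite G] [IsAddTorsionFree G] (F : AddMonoidAlgebra ℝ G)
    (hF : Pos F) (s1 s2 : G) (h1 : 0 < F.coeff s1) :
    (Ψ F).coeff s2 * F.coeff s1 = lam Ψ (s2 - s1) * F.coeff s2 * (Ψ F).coeff s1 := by
  classical
  rcases eq_or_ne s2 s1 with rfl | hne
  · rw [sub_self, lam_zero h]
    ring
  rcases eq_or_ne (F.coeff s2) 0 with h2 | h2
  · rw [(h.supp F hF s2).2 h2, h2]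
    ring
  have h2' : 0 < F.coeff s2 := (hF.pos_iff s2).2 h2
  set v : G := s2 - s1 with hv
  have hv0 : v ≠ 0 := sub_ne_zero.2 hne
  set H : AddMonoidAlgebra ℝ G := AddMonoidAlgebra.single (-s1) 1 * F with hH
  have hHp : Pos H := (Pos_single _ one_pos).mul hF
  have hHc : ∀ y, H.coeff y = F.coeff (y + s1) := by
    intro y
    rw [hH, coeff_single_mul_apply, neg_neg, one_mul, add_comm]
  have hr : 0 < (F.coeff s1)⁻¹ := inv_pos.2 h1
  set K : AddMonoidAlgebra ℝ G := (F.coeff s1)⁻¹ • H with hK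
  have hKp : Pos K := hHp.smul hr
  have hKc : ∀ y, K.coeff y = (F.coeff s1)⁻¹ * F.coeff (y + s1) := by
    intro y
    rw [hK, coeff_smul_apply, smul_eq_mul, hHc]
  have e1 : v + s1 = s2 := by rw [hv]; abel
  have hPK : ∀ y, (Ψ K).coeff y = (Ψ F).coeff (y + s1) := by
    intro y
    rw [hK, h.smul _ _ hr hHp, hH, h.translate _ hF, sub_neg_eq_add]
  have ha : 0 < (F.coeff s1)⁻¹ * F.coeff s2 := by positivity
  have k := ratio_ph h hv0 ha K hKp (by rw [hKc, zero_add, inv_mul_cancel₀ h1.ne'])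
    (by rw [hKc, e1])
  rw [hPK, hPK, e1, zero_add, linear_of_additive (ph Ψ v) (fun a ha => ph_pos h ha v)
    (fun a b ha hb => ph_add h hv0 ha hb) _ ha] at k
  rw [k, lam]
  field_simp

theorem lam_add (h : IsPsi Ψ) [Infinite G] [IsAddTorsionFree G] (v w : G) :
    lam Ψ (v + w) = lam Ψ v * lam Ψ w := by
  classical
  set F : AddMonoidAlgebra ℝ G := Fz 1 v (v + w) with hF
  have hFp : Pos F := Fz_pos one_pos _ _
  have f0 : 0 < F.coeff 0 := by
    rw [hF, coeff_Fz, if_pos rfl]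
    split_ifs <;> norm_num
  have fv : 0 < F.coeff v := by
    rw [hF, coeff_Fz, if_pos (rfl : v = v)]
    split_ifs <;> norm_num
  have fw : 0 < F.coeff (v + w) := by
    rw [hF, coeff_Fz, if_pos (rfl : v + w = v + w)]
    split_ifs <;> norm_num
  have k1 := ratio_gen h F hFp 0 v f0
  have k2 := ratio_gen h F hFp v (v + w) fv
  have k3 := ratio_gen h F hFp 0 (v + w) f0
  rw [sub_zero] at k1 k3
  rw [add_sub_cancel_left] at k2
  have g0 := h.pos hFp f0
  have gv := h.pos hFp fv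
  have gw := h.pos hFp fw
  have hne : F.coeff (v + w) * (Ψ F).coeff 0 * ((Ψ F).coeff v * F.coeff v) ≠ 0 := by positivity
  apply mul_right_cancel₀ hne
  calc lam Ψ (v + w) * (F.coeff (v + w) * (Ψ F).coeff 0 * ((Ψ F).coeff v * F.coeff v))
      = (lam Ψ (v + w) * F.coeff (v + w) * (Ψ F).coeff 0) * ((Ψ F).coeff v * F.coeff v) := by ring
    _ = ((Ψ F).coeff (v + w) * F.coeff 0) * ((Ψ F).coeff v * F.coeff v) := by rw [← k3]
    _ = ((Ψ F).coeff (v + w) * F.coeff v) * ((Ψ F).coeff v * F.coeff 0) := by ring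
    _ = (lam Ψ w * F.coeff (v + w) * (Ψ F).coeff v) * (lam Ψ v * F.coeff v * (Ψ F).coeff 0) := by
      rw [k1, k2]
    _ = _ := by ring

/-- The general form of `Ψ`. -/
theorem form (h : IsPsi Ψ) [Infinite G] [IsAddTorsionFree G] (F : AddMonoidAlgebra ℝ G)
    (hF : Pos F) (s : G) :
    (Ψ F).coeff s = lam Ψ s * F.coeff s / ∑ y ∈ F.coeff.support, lam Ψ y * F.coeff y := by
  obtain ⟨s1, h1⟩ := hF.2
  have hl : ∀ y, (Ψ F).coeff y = lam Ψ y * F.coeff y *
      ((Ψ F).coeff s1 / (lam Ψ s1 * F.coeff s1)) := by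
    intro y
    have k := ratio_gen h F hF s1 y h1
    have e : lam Ψ y = lam Ψ (y - s1) * lam Ψ s1 := by
      rw [← lam_add h, sub_add_cancel]
    have hp := lam_pos h s1
    rw [e]
    field_simp
    linarith
  set κ := (Ψ F).coeff s1 / (lam Ψ s1 * F.coeff s1) with hκ
  have hm := h.mass F hF
  rw [Finsupp.sum, h.support hF] at hm
  have hm2 : (∑ y ∈ F.coeff.support, lam Ψ y * F.coeff y) * κ = 1 := by
    rw [Finset.sum_mul, ← hm]
    exact Finset.sum_congr rfl fun y _ => (hl y).symm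
  have hne : (∑ y ∈ F.coeff.support, lam Ψ y * F.coeff y) ≠ 0 := by
    intro h0
    rw [h0, zero_mul] at hm2
    exact zero_ne_one hm2
  rw [eq_div_iff hne, hl s]
  calc lam Ψ s * F.coeff s * κ * ∑ y ∈ F.coeff.support, lam Ψ y * F.coeff y
      = lam Ψ s * F.coeff s * ((∑ y ∈ F.coeff.support, lam Ψ y * F.coeff y) * κ) := by ring
    _ = _ := by rw [hm2, mul_one]

end Pool.Agent.Q211.SP
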